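import Pool.Agent.U610.PC.Stm

/-!
Project PC, package ANI: anisotropic diagonal forms over the `p`-adic numbers.
-/

set_option autoImplicit false

namespace Pool.Agent.U610.PC

open Finset

namespace ANI

variable {p : ℕ} [hp : Fact p.Prime]

theorem sum_lt {ι : Type} (s : Finset ι) (f : ι → ℚ_[p]) {c : ℝ} (hc : 0 < c)
    (h : ∀ i ∈ s, ‖f i‖ < c) : ‖∑ i ∈ s, f i‖ < c := by
  classical
  induction s using Finset.induction_on with
  | empty => simpa using hc
  | insert a s ha ih =>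
    rw [Finset.sum_insert ha]
    refine (Padic.nonarchimedean _ _).trans_lt (max_lt (h a (Finset.mem_insert_self a s)) ?_)
    exact ih fun i hi => h i (Finset.mem_insert_of_mem hi)

theorem norm_int_le (m : ℤ) : ‖(m : ℚ_[p])‖ ≤ 1 := Padic.norm_int_le_one m

theorem norm_unit {m : ℤ} (h : ¬ (p : ℤ) ∣ m) : ‖(m : ℚ_[p])‖ = 1 := by
  refine le_antisymm (norm_int_le m) (not_lt.mp fun h1 => h ?_)
  exact Padic.norm_intCast_lt_one_iff.mp h1

theorem toZMod_zero {x : ℤ_[p]} (h : ‖x‖ < 1) : PadicInt.toZMod x = 0 := by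
  rw [← RingHom.mem_ker, PadicInt.ker_toZMod, IsLocalRing.mem_maximalIdeal, PadicInt.mem_nonunits]
  exact h

theorem val_term {e : ℕ} {y : ℚ_[p]} (hy : y ≠ 0) :
    ((p : ℚ_[p]) ^ e * y ^ 2).valuation = e + 2 * y.valuation := by
  have hp0 : (p : ℚ_[p]) ≠ 0 := by exact_mod_cast hp.out.ne_zero
  rw [Padic.valuation_mul (pow_ne_zero _ hp0) (pow_ne_zero _ hy), Padic.valuation_pow,
    Padic.valuation_pow, Padic.valuation_p]
  push_cast
  ring

end ANI

open ANI in
/-- **Package ANI**. -/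
theorem t_ANI : S_ANI := by
  classical
  intro p hpF _ n e u hu h3 h2 hiso
  obtain ⟨y, hy0, hy⟩ := hiso
  have hp0 : (p : ℚ_[p]) ≠ 0 := by exact_mod_cast hpF.out.ne_zero
  set T : Fin n → ℚ_[p] := fun i => (p : ℚ_[p]) ^ e i * y i ^ 2 with hT
  have hsum : ∑ i, (u i : ℚ_[p]) * T i = 0 := by
    rw [← hy]
    refine Finset.sum_congr rfl fun i _ => ?_
    simp only [hT]
    push_cast
    ring
  obtain ⟨k0, hk0⟩ : ∃ k, y k ≠ 0 := Function.ne_iff.mp hy0
  obtain ⟨i, -, hi⟩ := Finset.exists_max_image (univ : Finset (Fin n)) (fun i => ‖T i‖) ⟨k0, mem_univ _⟩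
  have hTk : T k0 ≠ 0 := mul_ne_zero (pow_ne_zero _ hp0) (pow_ne_zero _ hk0)
  have hTi : 0 < ‖T i‖ := lt_of_lt_of_le (norm_pos_iff.mpr hTk) (hi k0 (mem_univ _))
  have hTi0 : T i ≠ 0 := norm_pos_iff.mp hTi
  have hyi : y i ≠ 0 := by
    intro h
    apply hTi0
    simp only [hT, h]
    ring
  -- the indices of the other parity
  have hoth : ∀ k, e k % 2 ≠ e i % 2 → ‖(u k : ℚ_[p]) * T k‖ < ‖T i‖ := by
    intro k hk
    rw [norm_mul]
    have h4 : ‖(u k : ℚ_[p])‖ * ‖T k‖ ≤ ‖T k‖ :=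
      mul_le_of_le_one_left (norm_nonneg _) (norm_int_le _)
    refine h4.trans_lt (lt_of_le_of_ne (hi k (mem_univ _)) fun h5 => ?_)
    have hTk0 : T k ≠ 0 := norm_pos_iff.mp (h5 ▸ hTi)
    have hyk : y k ≠ 0 := by
      intro h
      apply hTk0
      simp only [hT, h]
      ring
    rw [Padic.norm_eq_zpow_neg_valuation hTk0, Padic.norm_eq_zpow_neg_valuation hTi0] at h5
    have h6 := zpow_right_injective₀ (by exact_mod_cast hpF.out.pos)
      (by exact_mod_cast hpF.out.one_lt.ne') h5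
    simp only [hT] at h6
    rw [val_term hyk, val_term hyi] at h6
    omega
  -- the indices of the same parity
  set S : Finset (Fin n) := univ.filter fun k => e k % 2 = e i % 2 with hS
  have hSsum : ‖∑ k ∈ S, (u k : ℚ_[p]) * T k‖ < ‖T i‖ := by
    have h4 := Finset.sum_filter_add_sum_filter_not (univ : Finset (Fin n))
      (fun k => e k % 2 = e i % 2) (fun k => (u k : ℚ_[p]) * T k)
    rw [hsum] at h4
    rw [eq_neg_of_add_eq_zero_left h4, norm_neg]
    exact sum_lt _ _ hTi fun k hk => hoth k (mem_filter.mp hk).2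
  by_cases hj : ∃ j ∈ S, j ≠ i
  · obtain ⟨j, hjS, hji⟩ := hj
    have hje : e j % 2 = e i % 2 := (mem_filter.mp hjS).2
    have hSeq : S = {i, j} := by
      ext k
      rw [mem_insert, mem_singleton]
      constructor
      · intro hk
        by_contra h4
        push Not at h4
        exact h3 ⟨i, j, k, hji.symm, h4.1.symm, h4.2.symm, hje.symm, (mem_filter.mp hk).2.symm⟩
      · rintro (rfl | rfl)
        · exact mem_filter.mpr ⟨mem_univ _, rfl⟩
        · exact hjS
    rw [hSeq, Finset.sum_pair hji.symm] at hSsum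
    set z : ℚ_[p] := ((p : ℚ_[p]) ^ (e j / 2) * y j) / ((p : ℚ_[p]) ^ (e i / 2) * y i) with hz
    have hden : (p : ℚ_[p]) ^ (e i / 2) * y i ≠ 0 := mul_ne_zero (pow_ne_zero _ hp0) hyi
    have hTz : T j = T i * z ^ 2 := by
      have e1 : ∀ k, T k = (p : ℚ_[p]) ^ (e k % 2) * ((p : ℚ_[p]) ^ (e k / 2) * y k) ^ 2 := by
        intro k
        simp only [hT]
        rw [mul_pow, ← pow_mul, ← mul_assoc, ← pow_add]
        congr 2
        omega
      rw [e1 j, e1 i, hje, hz, div_pow]
      field_simp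
    have hz1 : ‖z‖ ≤ 1 := by
      have h4 := hi j (mem_univ _)
      rw [hTz, norm_mul, norm_pow] at h4
      have h5 : ‖z‖ ^ 2 ≤ 1 := by
        by_contra h6
        push Not at h6
        nlinarith
      nlinarith [norm_nonneg z]
    rw [hTz] at hSsum
    have h4 : (u i : ℚ_[p]) * T i + (u j : ℚ_[p]) * (T i * z ^ 2) =
        T i * ((u i : ℚ_[p]) + (u j : ℚ_[p]) * z ^ 2) := by ring
    rw [h4, norm_mul] at hSsum
    have h5 : ‖(u i : ℚ_[p]) + (u j : ℚ_[p]) * z ^ 2‖ < 1 := by
      by_contra h6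
      push Not at h6
      nlinarith
    let w : ℤ_[p] := ⟨z, hz1⟩
    have h6 : ‖((u i : ℤ_[p]) + (u j : ℤ_[p]) * w ^ 2)‖ < 1 := by
      rw [PadicInt.norm_def]
      push_cast
      exact h5
    have h7 := toZMod_zero h6
    rw [map_add, map_mul, map_pow, map_intCast, map_intCast] at h7
    apply h2 i j hji.symm hje.symm
    refine ⟨(u j : ZMod p) * PadicInt.toZMod w, ?_⟩
    push_cast
    linear_combination (-(u j : ZMod p)) * h7
  · push Not at hj
    have hSeq : S = {i} := by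
      ext k
      rw [mem_singleton]
      constructor
      · exact hj k
      · rintro rfl
        exact mem_filter.mpr ⟨mem_univ _, rfl⟩
    rw [hSeq, Finset.sum_singleton, norm_mul, norm_unit (hu i), one_mul] at hSsum
    exact lt_irrefl _ hSsum

end Pool.Agent.U610.PC
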